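import Pool.Agent.Helper22.NEARg.Defs

/-!
# T5g (MP_12a1af), block CaseStat: the inner windows over the static block

`prB m k l' l t h`: the pair of states `l' < l` below the common front `t ≥ 1`, levels
`t, ..., t + h - 1`.  The windows of the two states below the static level `t` are towers of these
levels over the windows of the level `t + h`, which depend only on the deep keys.
-/

set_option autoImplicit false

namespace Pool.Agent.Helper39.T5g

open Finset
open Pool.Agent.Helper5.ET hiding Key Mk AA Rp keysOf el ext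
open Pool.Agent.Helper27.T4
open Pool.Agent.Helper27.T5g Pool.Agent.Helper27.T5b Pool.Agent.Helper37.T5g
open Pool.Agent.Helper30.T5g hiding pz_prime pz_inj
open Pool.Agent.Helper22.HW Pool.Agent.Helper22.SL Pool.Agent.Helper57.T5
open Pool.Agent.Helper39.T5 Pool.Agent.Helper50.T5 Pool.Agent.Helper42.T5.Pr
open Pool.Agent.Helper84.T5g Pool.Agent.Helper44.T5g Pool.Agent.Helper44.T5b Pool.Agent.Helper39.SL
open Pool.Agent.Helper22.NEARg
open Pool.Agent.Helper27.T5 (sp gw)

variable {m : Sq} {k l l' t h : ℕ}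

/-- the pair of states `l' < l` below the front `t` -/
noncomputable def prB (m : Sq) (k l' l t h : ℕ) : Pr Key where
  h := h
  p := fun r => pz k (sL m k l - (t + r))
  z := fun r => zf m k (sL m k l - (t + r))
  M := Jn m k (sL m k l) l
  M' := Jn m k (sL m k l) l'
  L0 := LL (QQ m k (sL m k l)) t
  F := fun r => FF m k l (t + r)
  F' := fun r => FF m k l' (t + r)
  Y := fun r => Ys m k l (t + r)
  key := fun r => (Ss m k l (t + r) 0).key
  key' := fun r => (Ss m k l' (t + r) 0).key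

theorem prB_Q (r : ℕ) : (prB m k l' l t h).Q r = QQ m k (sL m k l) (t + r) := rfl

theorem prB_L (r : ℕ) : (prB m k l' l t h).L r = LL (QQ m k (sL m k l)) (t + r) := by
  induction r with
  | zero =>
    unfold Pr.L
    rw [Finset.range_zero, Finset.prod_empty, mul_one]
    rfl
  | succ r ih =>
    rw [Pr.L_succ, ih, prB_Q, ← LL_succ]
    rfl

theorem prB_S (r : ℕ) : (prB m k l' l t h).S r = Ss m k l (t + r) 0 := by
  unfold Pr.S Ss
  rw [prB_L]
  rfl

/-! ## codes -/

/-- the codes of the levels of `prB` are the static codes of the upper state -/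
theorem cU_prB (hP : (prB m k l' l t h).Ok (Mk m k)) (w : Key → ℕ) (r : ℕ) (y : Fin 3 → ℕ) :
    cU hP w r y = cs m k l (t + r) w 0 y := by
  have h1 : ∀ S : Side (pz k (sL m k l - (t + r))) Key, (prB m k l' l t h).S r = S →
      cU hP w r y = S.cd (pz_prime k _) (pz_inj k _) w y := by
    rintro S rfl
    rfl
  exact h1 _ (prB_S r)

/-- the same for the lower state -/
theorem cU'_prB (hP : (prB m k l' l t h).Ok (Mk m k)) (hs : sL m k l' = sL m k l) (w : Key → ℕ)
    (r : ℕ) (y : Fin 3 → ℕ) : cU' hP w r y = cs m k l' (t + r) w 0 y := by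
  rw [cs_eq_csG, hs]
  have h1 : cU' hP w r y = csG m k (sL m k l) (t + r)
      ((prB m k l' l t h).F' (r + 1) * (prB m k l' l t h).L r)
      (fun f y => Key.S l' (t + r) f 0 (mask (univ.filter (fun g => g < f)) y)) w y := rfl
  rw [h1, prB_L]
  rfl

/-! ## the windows as towers -/

theorem Zw_eq_Bw {s : ℕ} {w : Key → ℕ} (hm : m.Ok) (hs : s ≤ rL m k l) {u : ℕ}
    (hu : u ∈ Zw m k l s w) : ∃ b ∈ Bw m k l s w,
      u = Jn m k (sL m k l) l * LL (QQ m k (sL m k l)) s * b := by
  refine ⟨u / (Jn m k (sL m k l) l * LL (QQ m k (sL m k l)) s), mem_image_of_mem _ hu, ?_⟩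
  rw [Nat.mul_div_cancel' (dvd_Zw hm hs hu)]

/-- **upper state** -/
theorem rep_prB (hP : (prB m k l' l t h).Ok (Mk m k)) (hm : m.Ok) (hth : t + h ≤ rL m k l)
    (w : Key → ℕ) : Rep (prB m k l' l t h) (cU hP w) (Jn m k (sL m k l) l) (Bw m k l (t + h) w)
      (Zw m k l t w) := by
  intro u hu
  obtain ⟨y, hy, u', hu', he⟩ := Zw_split h hth hu
  obtain ⟨b, hb', hub⟩ := Zw_eq_Bw hm hth hu'
  refine ⟨y, fun r hr => hy r hr, b, hb', ?_⟩
  rw [he, hub]
  congr 1
  · exact Finset.sum_congr rfl (fun r _ => (cU_prB hP w r (y r)).symm)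
  · have h1 : (prB m k l' l t h).L (prB m k l' l t h).h = LL (QQ m k (sL m k l)) (t + h) :=
      prB_L h
    rw [h1]

/-- **lower state** -/
theorem rep_prB' (hP : (prB m k l' l t h).Ok (Mk m k)) (hm : m.Ok)
    (hs : sL m k l' = sL m k l) (hth : t + h ≤ rL m k l') (w : Key → ℕ) :
    Rep (prB m k l' l t h) (cU' hP w) (Jn m k (sL m k l) l') (Bw m k l' (t + h) w)
      (Zw m k l' t w) := by
  intro u hu
  obtain ⟨y, hy, u', hu', he⟩ := Zw_split h hth hu
  obtain ⟨b, hb', hub⟩ := Zw_eq_Bw hm hth hu'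
  refine ⟨y, fun r hr => ?_, b, hb', ?_⟩
  · have h2 := hy r hr
    rw [Ys_eq_YsG, hs] at h2
    exact h2
  rw [he, hub, hs]
  congr 1
  · exact Finset.sum_congr rfl (fun r _ => (cU'_prB hP hs w r (y r)).symm)
  · have h1 : (prB m k l' l t h).L (prB m k l' l t h).h = LL (QQ m k (sL m k l)) (t + h) :=
      prB_L h
    rw [h1]

/-! ## the windows depend only on the deep keys -/

open Classical in
theorem mem_keysD {s : ℕ} {q : Key} : q ∈ keysD m k l s ↔ q ∈ keysOf m k l ∧ isDeep s q := by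
  unfold keysD
  exact mem_filter

theorem keysD_sub (m : Sq) (k l s : ℕ) : keysD m k l s ⊆ keysOf m k l := fun _ hq => (mem_keysD.1 hq).1

theorem keysD_anti {m : Sq} {k l s s' : ℕ} (h : s ≤ s') : keysD m k l s' ⊆ keysD m k l s := by
  intro q hq
  rw [mem_keysD] at hq ⊢
  refine ⟨hq.1, ?_⟩
  cases q with
  | J l i x => exact hq.2
  | S l t f o y => exact le_trans h hq.2
  | V l L b => exact hq.2

theorem QQ_le_NL (hm : m.Ok) (hl : bb 0 ≤ mL m k l) (ht : t < rL m k l) :
    QQ m k (sL m k l) t ≤ NL m k l := by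
  have h1 : QQ m k (sL m k l) t ∣ LL (QQ m k (sL m k l)) (rL m k l) := by
    have h2 := LL_dvd (QQ m k (sL m k l)) (show t + 1 ≤ rL m k l by omega)
    rw [LL_succ] at h2
    exact (dvd_mul_left _ _).trans h2
  have h3 : QQ m k (sL m k l) t ∣ NL m k l := by
    rw [← Pool.Agent.Helper27.T5g.Un_mul_RT hm hl]
    refine (h1.trans ?_).trans (dvd_mul_right _ _)
    unfold Un
    exact dvd_mul_left _ _
  exact Nat.le_of_dvd (Pool.Agent.Helper30.T5g.NL_pos m k l) h3

theorem Ys_lt {y : Fin 3 → ℕ} (hy : y ∈ Ys m k l t) (g : Fin 3) :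
    y g < QQ m k (sL m k l) t := by
  obtain ⟨_, _, h⟩ := Ys_adm m k l t y hy g
  have h1 : pz k (sL m k l - t) g ^ zf m k (sL m k l - t) g ≤ QQ m k (sL m k l) t := by
    rw [Pool.Agent.Helper44.T5g.QQ_eq_NN]
    unfold NN
    exact Nat.le_of_dvd (Finset.prod_pos (fun i _ => pow_pos (pz_prime k _ i).pos _))
      (Finset.dvd_prod_of_mem _ (mem_univ g))
  nlinarith

theorem mask_le (P : Finset (Fin 3)) (x : Fin 3 → ℕ) (g : Fin 3) : mask P x g ≤ x g := by
  unfold mask
  split_ifs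
  · exact le_rfl
  · exact Nat.zero_le _

/-- the static keys with the outer key `0` are among the keys of the state -/
theorem skey_mem (hm : m.Ok) (hl : bb 0 ≤ mL m k l) (ht : t < rL m k l) {y : Fin 3 → ℕ}
    (hy : y ∈ Ys m k l t) (f : Fin 3) : (Ss m k l t 0).key f y ∈ keysOf m k l := by
  show Key.S l t f 0 (mask (univ.filter (fun g => g < f)) y) ∈ keysOf m k l
  unfold keysOf
  rw [mem_union, mem_union]
  refine Or.inl (Or.inr ?_)
  rw [mem_image]
  refine ⟨((t, f), (0, mask (univ.filter (fun g => g < f)) y)), ?_, rfl⟩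
  simp only [mem_product, mem_range, mem_univ, and_true, Fintype.mem_piFinset]
  refine ⟨by omega, fun i => ?_, fun g => ?_⟩
  · show 0 < Bd m k l
    unfold Bd
    omega
  · have h1 := mask_le (univ.filter (fun g => g < f)) y g
    have h2 := Ys_lt hy g
    have h3 := QQ_le_NL hm hl ht
    unfold Bd
    omega

theorem skey_mem_keysD (hm : m.Ok) (hl : bb 0 ≤ mL m k l) {s : ℕ} (hs : s ≤ t)
    (ht : t < rL m k l) {y : Fin 3 → ℕ} (hy : y ∈ Ys m k l t) (f : Fin 3) :
    (Ss m k l t 0).key f y ∈ keysD m k l s := by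
  rw [mem_keysD]
  exact ⟨skey_mem hm hl ht hy f, hs⟩

/-- the code of a level depends only on the keys of the level -/
theorem cs_congr {w w' : Key → ℕ} {o : JF → ℕ} {y : Fin 3 → ℕ}
    (h : ∀ f, w ((Ss m k l t o).key f y) = w' ((Ss m k l t o).key f y)) :
    cs m k l t w o y = cs m k l t w' o y := by
  have h1 : (fun i => Lg (pz k (sL m k l - t) i) ((Ss m k l t o).e i) (y i) +
      (Ss m k l t o).rho w i y) =
      fun i => Lg (pz k (sL m k l - t) i) ((Ss m k l t o).e i) (y i) +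
        (Ss m k l t o).rho w' i y := by
    funext i
    unfold Side.rho
    rw [h i]
  unfold cs Side.cd lc
  rw [h1]

/-- the window is one number -/
theorem Vw_congr (w w' : Key → ℕ) : Vw m k l w = Vw m k l w' := rfl

/-- **dependence of the windows** -/
theorem Zw_congr (hm : m.Ok) (hl : bb 0 ≤ mL m k l) {w w' : Key → ℕ} {s : ℕ}
    (h : ∀ q ∈ keysD m k l s, w q = w' q) : Zw m k l s w = Zw m k l s w' := by
  unfold Zw
  rw [Vw_congr w w']
  refine Finset.image_congr (fun q hq => ?_)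
  rw [mem_coe, mem_product, Fintype.mem_piFinset] at hq
  congr 1
  refine Finset.sum_congr rfl (fun i _ => cs_congr (fun f => h _ ?_))
  exact skey_mem_keysD hm hl (by omega) (by have := i.2; omega) (hq.1 i) f

theorem Bw_congr (hm : m.Ok) (hl : bb 0 ≤ mL m k l) {w w' : Key → ℕ} {s : ℕ}
    (h : ∀ q ∈ keysD m k l s, w q = w' q) : Bw m k l s w = Bw m k l s w' := by
  unfold Bw
  rw [Zw_congr hm hl h]

/-! ## the keys of the levels of `prB` -/

theorem skey_not_mem_keysD {s : ℕ} (hs : t < s) (l2 : ℕ) (o : JF → ℕ) (f : Fin 3)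
    (y : Fin 3 → ℕ) : (Ss m k l t o).key f y ∉ keysD m k l2 s := by
  rw [mem_keysD]
  rintro ⟨_, h⟩
  have h1 : s ≤ t := h
  omega

theorem deep_sub {K : Finset Key} {s : ℕ} (hK : keysOf m k l ⊆ K) (hK' : keysOf m k l' ⊆ K) :
    deep m k l l' s ⊆ K :=
  union_subset ((keysD_sub _ _ _ _).trans hK) ((keysD_sub _ _ _ _).trans hK')

theorem Bw_congr_deep (hm : m.Ok) (hl : bb 0 ≤ mL m k l) (hl' : bb 0 ≤ mL m k l')
    {w w' : Key → ℕ} {s : ℕ} (h : ∀ q ∈ deep m k l l' s, w q = w' q) :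
    Bw m k l s w = Bw m k l s w' ∧ Bw m k l' s w = Bw m k l' s w' :=
  ⟨Bw_congr hm hl (fun q hq => h q (mem_union_left _ hq)),
    Bw_congr hm hl' (fun q hq => h q (mem_union_right _ hq))⟩

/-- hypothesis `hK` of the static block -/
theorem prB_keys (hm : m.Ok) (hl : bb 0 ≤ mL m k l) (hl' : bb 0 ≤ mL m k l')
    (hs : sL m k l' = sL m k l) (hth : t + h ≤ rL m k l) (hth' : t + h ≤ rL m k l')
    {K : Finset Key} (hK : keysOf m k l ⊆ K) (hK' : keysOf m k l' ⊆ K) :
    ∀ r < (prB m k l' l t h).h, ∀ i, ∀ y ∈ (prB m k l' l t h).Y r,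
      (prB m k l' l t h).key r i y ∈ K ∧ (prB m k l' l t h).key' r i y ∈ K := by
  intro r hr i y hy
  have hr' : r < h := hr
  refine ⟨hK (skey_mem hm hl (t := t + r) (by omega) hy i),
    hK' (skey_mem hm hl' (t := t + r) (by omega) ?_ i)⟩
  rw [Ys_eq_YsG, hs]
  exact hy

/-- hypothesis `hK` of the static block, relative to the deep keys -/
theorem prB_keys_deep (hm : m.Ok) (hl : bb 0 ≤ mL m k l) (hl' : bb 0 ≤ mL m k l')
    (hs : sL m k l' = sL m k l) (hth : t + h ≤ rL m k l) (hth' : t + h ≤ rL m k l')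
    {K : Finset Key} (hK : keysOf m k l ⊆ K) (hK' : keysOf m k l' ⊆ K) :
    ∀ r < (prB m k l' l t h).h, ∀ i, ∀ y ∈ (prB m k l' l t h).Y r,
      (prB m k l' l t h).key r i y ∈ K \ deep m k l l' (t + h) ∧
      (prB m k l' l t h).key' r i y ∈ K \ deep m k l l' (t + h) := by
  intro r hr i y hy
  have hr' : r < h := hr
  obtain ⟨h1, h2⟩ := prB_keys hm hl hl' hs hth hth' hK hK' r hr i y hy
  refine ⟨mem_sdiff.2 ⟨h1, ?_⟩, mem_sdiff.2 ⟨h2, ?_⟩⟩
  · unfold deep
    rw [mem_union, not_or]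
    exact ⟨skey_not_mem_keysD (l := l) (t := t + r) (by omega) l 0 i y,
      skey_not_mem_keysD (l := l) (t := t + r) (by omega) l' 0 i y⟩
  · unfold deep
    rw [mem_union, not_or]
    exact ⟨skey_not_mem_keysD (l := l') (t := t + r) (by omega) l 0 i y,
      skey_not_mem_keysD (l := l') (t := t + r) (by omega) l' 0 i y⟩

end Pool.Agent.Helper39.T5g
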