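import Pool.Agent.Helper39.T5g.InRep

/-!
# T5g (MP_12a1af), NEARb block, line Nb4: the static block for a pair of states, all contexts
-/

set_option autoImplicit false

namespace Pool.Agent.Helper39.T5g

open Finset
open Pool.Agent.Helper5.ET hiding Key Mk AA Rp keysOf el ext
open Pool.Agent.Helper27.T4
open Pool.Agent.Helper27.T5b
open Pool.Agent.Helper27.T5g hiding Jn_pos
open Pool.Agent.Helper37.T5g
open Pool.Agent.Helper30.T5g hiding pz_prime pz_inj
open Pool.Agent.Helper22.HW Pool.Agent.Helper22.SL Pool.Agent.Helper57.T5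
open Pool.Agent.Helper39.T5 Pool.Agent.Helper50.T5 Pool.Agent.Helper42.T5.Pr
open Pool.Agent.Helper84.T5g Pool.Agent.Helper44.T5 Pool.Agent.Helper44.T5g Pool.Agent.Helper44.T5b
open Pool.Agent.Helper39.SL
open Pool.Agent.Helper22.NEARg

variable {m : Sq} {k l l' t : ℕ}

/-! ## classes of labels -/

/-- the number of joint digits between `l'` and the front `t + r` of `l'` -/
noncomputable def eJ (m : Sq) (k l l' t r : ℕ) : JF → ℕ := fun i =>
  aJ m k (sL m k l) (ez m (sL m k l - (t + r)) l') i - aJ m k (sL m k l) l' i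

/-- the number of labels in a class modulo the front `t + r` of `l'` -/
noncomputable def IrJ (m : Sq) (k l l' t r : ℕ) : ℕ :=
  ∏ i, pJ k (sL m k l) i ^ (uJ m k l l' i - eJ m k l l' t r i)

theorem DJ_pos (m : Sq) (k l l' t : ℕ) : 0 < DJ m k l l' t := by
  unfold DJ NN
  exact Finset.prod_pos (fun i _ => pow_pos (pJ_prime k _ i).pos _)

theorem coprime_LL_DJ {m : Sq} {k l l' t : ℕ} (ht : t ≤ sL m k l + 1) (hk : t ≤ k + 2) :
    (LL (QQ m k (sL m k l)) t).Coprime (DJ m k l l' t) := by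
  unfold DJ NN
  exact Nat.Coprime.prod_right (fun i _ => Nat.Coprime.pow_right _ (coprime_LL_pJ ht hk i))

theorem Qi_spec {m : Sq} {k t l' l : ℕ} (ht : t ≤ sL m k l + 1) (hk : t ≤ k + 2) :
    LL (QQ m k (sL m k l)) t * Qi m k t l' l ≡ 1 [MOD DJ m k l l' t] := by
  have : NeZero (DJ m k l l' t) := ⟨(DJ_pos _ _ _ _ _).ne'⟩
  unfold Qi
  refine (ZMod.natCast_eq_natCast_iff _ _ _).1 ?_
  rw [Nat.cast_mul, ZMod.natCast_zmod_val, Nat.cast_one]
  exact ZMod.coe_mul_inv_eq_one _ (coprime_LL_DJ ht hk)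

/-- from the class of the context to the class of the label -/
theorem clx_modEq {m : Sq} {k t l' l E : ℕ} (ht : t ≤ sL m k l + 1) (hk : t ≤ k + 2)
    (hE : E ∣ DJ m k l l' t) (c : Cx) {i x : ℕ} (h : clx m k t l' l c i ≡ x [MOD E]) :
    clJ m k l l' t c.1 i + c.2.1 ≡ LL (QQ m k (sL m k l)) t * x [MOD E] := by
  have h1 : LL (QQ m k (sL m k l)) t * clx m k t l' l c i ≡
      LL (QQ m k (sL m k l)) t * x [MOD E] := Nat.ModEq.mul_left _ h
  refine Nat.ModEq.trans ?_ h1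
  unfold clx
  rw [← mul_assoc]
  have h2 := (Qi_spec (l' := l') ht hk).of_dvd hE
  have h3 := h2.mul_right (clJ m k l l' t c.1 i + c.2.1)
  rw [one_mul] at h3
  exact h3.symm

theorem le_front {m : Sq} (hm : m.Ok) (k t l : ℕ) :
    l ≤ ef m k l t := (lt_ez hm _ l).le

/-- the fronts of the lower state above the common front -/
theorem ez_front {m : Sq} {k t l' l : ℕ} (h : PDb m k t l' l) (hm : m.Ok) (r : ℕ) :
    ez m (sL m k l - (t + r)) l' ≤ ef m k l t := by
  have h1 : ez m (sL m k l - (t + r)) l' ≤ ez m (sL m k l - t) l' :=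
    ez_le hm (by omega) l'
  have h2 : ef m k l' t = ez m (sL m k l' - t) l' := rfl
  rw [h.sL_eq, h.com] at h2
  rw [← h2] at h1
  exact h1

theorem eJ_le {m : Sq} {k t l' l : ℕ} (h : PDb m k t l' l) (hm : m.Ok) (r : ℕ) (i : JF) :
    eJ m k l l' t r i ≤ dJ m k l l' t i := by
  unfold eJ dJ
  have := aJ_mono m k (sL m k l) i (ez_front h hm r)
  omega

theorem uJ_le {m : Sq} {k t l' l : ℕ} (hm : m.Ok) (i : JF) :
    uJ m k l l' i ≤ dJ m k l l' t i := by
  unfold uJ dJ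
  have : aJ m k (sL m k l) l i ≤ aJ m k (sL m k l) (ef m k l t) i :=
    aJ_mono m k (sL m k l) i (lt_ez hm _ l).le
  omega

/-- hypothesis `hC1` of the static block -/
theorem hC1_b {m : Sq} {k t l' l : ℕ} (hm : m.Ok) (ht : t ≤ sL m k l + 1)
    (hk : t ≤ k + 2) {c : Cx} (hc : c.1 ∈ Theta (pJ k (sL m k l)) (dJ m k l l' t)) (x : ℕ) :
    ((range (IJ m k l l')).filter (fun i => clx m k t l' l c i % DJ m k l l' t = x)).card ≤ 1 := by
  rw [Finset.card_le_one]
  intro i hi i' hi'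
  rw [mem_filter, mem_range] at hi hi'
  have h1 : clx m k t l' l c i ≡ clx m k t l' l c i' [MOD DJ m k l l' t] :=
    hi.2.trans hi'.2.symm
  have h2 := clx_modEq ht hk dvd_rfl c h1
  have h3 := clx_modEq ht hk dvd_rfl c
    (Nat.ModEq.refl (n := DJ m k l l' t) (clx m k t l' l c i'))
  have h4 := Nat.ModEq.add_right_cancel' _ (h2.trans h3.symm)
  exact cln_inj (pJ_prime k (sL m k l)) (pJ_ne_two k _) (pJ_inj k (sL m k l))
    (aJ m k (sL m k l) l') (dJ m k l l' t) (dJ m k l l' t) (uJ m k l l') (fun i => le_rfl)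
    (fun i => uJ_le hm i) hc hi.1 hi'.1 h4

/-- the modulus of the classes of the front `t + r` -/
theorem F'_div {m : Sq} {k t l' l : ℕ} (h : PDb m k t l' l) (hm : m.Ok) (r : ℕ) :
    (PN m k t l' l).F' r / (PN m k t l' l).M' = NN (pJ k (sL m k l)) (eJ m k l l' t r) := by
  have e1 : (PN m k t l' l).F' r = Jn m k (sL m k l') (ez m (sL m k l' - (t + r)) l') := rfl
  have e2 : (PN m k t l' l).M' = Jn m k (sL m k l) l' := rfl
  rw [e1, e2, h.sL_eq]
  have hle : l' ≤ ez m (sL m k l - (t + r)) l' := (lt_ez hm _ l').le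
  have e3 : Jn m k (sL m k l) (ez m (sL m k l - (t + r)) l') =
      Jn m k (sL m k l) l' * NN (pJ k (sL m k l)) (eJ m k l l' t r) := by
    unfold Jn
    rw [← NN_add]
    congr 1
    funext i
    have := aJ_mono m k (sL m k l) i hle
    unfold eJ
    omega
  rw [e3, Nat.mul_div_cancel_left _ (Jn_pos _ _ _ _)]

/-- hypothesis `hF0` of the static block -/
theorem F0_b {m : Sq} {k t l' l : ℕ} (h : PDb m k t l' l) (hm : m.Ok) :
    (PN m k t l' l).F 0 = (PN m k t l' l).M' * DJ m k l l' t := by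
  have e1 : (PN m k t l' l).F 0 = Jn m k (sL m k l) (ef m k l t) := rfl
  have e2 : (PN m k t l' l).M' = Jn m k (sL m k l) l' := rfl
  rw [e1, e2]
  unfold Jn DJ
  rw [← NN_add]
  congr 1
  funext i
  have := aJ_mono m k (sL m k l) i (h.le.trans (le_front hm k t l))
  unfold dJ
  omega

/-- hypothesis `hIr` of the static block -/
theorem hIr_b {m : Sq} {k t l' l : ℕ} (h : PDb m k t l' l) (hm : m.Ok) (ht : t ≤ sL m k l + 1)
    (hk : t ≤ k + 2) {c : Cx} (hc : c.1 ∈ Theta (pJ k (sL m k l)) (dJ m k l l' t)) (r x : ℕ) :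
    (((range (IJ m k l l')).image (fun i => clx m k t l' l c i % DJ m k l l' t)).filter
      (fun y => y % ((PN m k t l' l).F' r / (PN m k t l' l).M') =
        x % ((PN m k t l' l).F' r / (PN m k t l' l).M'))).card ≤ IrJ m k l l' t r := by
  rw [F'_div h hm r]
  set E := NN (pJ k (sL m k l)) (eJ m k l l' t r) with hE
  have hEpos : 0 < E := by
    rw [hE]
    unfold NN
    exact Finset.prod_pos (fun i _ => pow_pos (pJ_prime k _ i).pos _)
  have hED : E ∣ DJ m k l l' t := NN_dvd (pJ k (sL m k l)) (fun i => eJ_le h hm r i)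
  rw [Finset.filter_image]
  refine card_image_le.trans ?_
  refine le_trans (card_le_card ?_) (card_cln_class (pJ_prime k (sL m k l)) (pJ_ne_two k _)
    (pJ_inj k (sL m k l)) (aJ m k (sL m k l) l') (dJ m k l l' t) (eJ m k l l' t r)
    (uJ m k l l') (fun i => eJ_le h hm r i) hc
    (LL (QQ m k (sL m k l)) t * x + c.2.1 * (E - 1)))
  intro i hi
  rw [mem_filter] at hi ⊢
  refine ⟨hi.1, ?_⟩
  have h1 : clx m k t l' l c i ≡ x [MOD E] := by
    have h2 := hi.2
    rw [Nat.mod_mod_of_dvd _ hED] at h2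
    exact h2
  have h2 := clx_modEq ht hk hED c h1
  refine Nat.ModEq.add_right_cancel' c.2.1 (h2.trans ?_)
  have h3 : LL (QQ m k (sL m k l)) t * x + c.2.1 * (E - 1) + c.2.1 =
      LL (QQ m k (sL m k l)) t * x + c.2.1 * E := by
    obtain ⟨E', hE'⟩ : ∃ E', E = E' + 1 := ⟨E - 1, by omega⟩
    rw [hE', Nat.add_sub_cancel]
    ring
  rw [h3]
  have h4 : LL (QQ m k (sL m k l)) t * x + 0 ≡ LL (QQ m k (sL m k l)) t * x + c.2.1 * E [MOD E] :=
    Nat.ModEq.add_left _ ((Nat.modEq_zero_iff_dvd.2 (dvd_mul_left _ _)).symm)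
  rwa [add_zero] at h4

/-! ## the leaf -/

/-- the leaf of the windows of the level `s` in the form of `sl_union` -/
theorem leaf_Bw_of_Zw {s R0 : ℕ} (hm : m.Ok) (hsl : sL m k l' = sL m k l)
    (hs : s ≤ rL m k l) (hs' : s ≤ rL m k l') (w : Key → ℕ)
    (h : ∀ n, ((Zw m k l s w ×ˢ Zw m k l' s w).filter (fun q => q.1 + q.2 = n)).card ≤ R0)
    (n : ℕ) : ((Bw m k l s w ×ˢ Bw m k l' s w).filter
      (fun q => Jn m k (sL m k l) l * LL (QQ m k (sL m k l)) s * q.1 +
        Jn m k (sL m k l) l' * LL (QQ m k (sL m k l)) s * q.2 = n)).card ≤ R0 := by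
  have hpos : 0 < Jn m k (sL m k l) l * LL (QQ m k (sL m k l)) s :=
    Nat.mul_pos (Jn_pos _ _ _ _) (LL_QQ_pos _ _ _ _)
  have hpos' : 0 < Jn m k (sL m k l) l' * LL (QQ m k (sL m k l)) s :=
    Nat.mul_pos (Jn_pos _ _ _ _) (LL_QQ_pos _ _ _ _)
  have hmem : ∀ x, s ≤ rL m k x → ∀ b ∈ Bw m k x s w,
      Jn m k (sL m k x) x * LL (QQ m k (sL m k x)) s * b ∈ Zw m k x s w := by
    intro x hx b hb1
    unfold Bw at hb1
    rw [mem_image] at hb1
    obtain ⟨u, hu, rfl⟩ := hb1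
    rw [Nat.mul_div_cancel' (dvd_Zw hm hx hu)]
    exact hu
  refine le_trans (card_le_card_of_injOn
    (fun q : ℕ × ℕ => (Jn m k (sL m k l) l * LL (QQ m k (sL m k l)) s * q.1,
      Jn m k (sL m k l) l' * LL (QQ m k (sL m k l)) s * q.2)) ?_ ?_) (h n)
  · intro q hq
    simp only [coe_filter, mem_product, Set.mem_ofPred_eq] at hq ⊢
    have h2 := hmem l' hs' _ hq.1.2
    rw [hsl] at h2
    exact ⟨⟨hmem l hs _ hq.1.1, h2⟩, hq.2⟩
  · intro q _ q' _ hqq
    simp only [Prod.mk.injEq] at hqq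
    exact Prod.ext (Nat.eq_of_mul_eq_mul_left hpos hqq.1) (Nat.eq_of_mul_eq_mul_left hpos' hqq.2)

/-! ## the block -/

/-- the numbers of a pair of states, in the form of the static block -/
structure NumB (m : Sq) (k t l' l : ℕ) (Γ : ℝ) : Prop where
  big : bb 0 ≤ mL m k l
  big' : bb 0 ≤ mL m k l'
  ok : (PN m k t l' l).Ok (Mk m k)
  hA : ∀ δ : ℝ, δ ≤ wW m k l (sb m k t l' l) → ∀ r < hb m k t l' l,
    80 * (IJ m k l l' : ℝ) * (PN m k t l' l).A r * (PN m k t l' l).p r 0 *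
      (PN m k t l' l).p r 2 * Real.sqrt ((PN m k t l' l).q r 1) ≤
        Real.exp (-δ) * (PN m k t l' l).q r 1
  hB : ∀ δ : ℝ, δ ≤ wW m k l (sb m k t l' l) → ∀ r < hb m k t l' l, 1 ≤ r →
    (IrJ m k l l' t r : ℝ) * (PN m k t l' l).A r * (PN m k t l' l).pc r ≤ Real.exp (-δ)
  hG : ∀ r < hb m k t l' l, (((PN m k t l' l).q r 0 * (PN m k t l' l).q r 1 : ℕ) : ℝ) *
    ((PN m k t l' l).W r * (PN m k t l' l).q r 1) ≤ Γ
  hG' : (PN m k t l' l).W (hb m k t l' l) ≤ Γ

/-- **the static block, all contexts**, from the numbers of the pair -/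
theorem sl_inst_of (hm : m.Ok) (h : PDb m k t l' l) {Γ : ℝ} (hN : NumB m k t l' l Γ)
    {K : Finset Key} (hK : keysOf m k l ⊆ K) (hK' : keysOf m k l' ⊆ K) {R0 n : ℕ} (hn : 1 ≤ n)
    {δ ε : ℝ} (hδ : δ ≤ wW m k l (sb m k t l' l)) {A : (Key → ℕ) → Prop}
    (hA : Pool.Agent.Helper22.SL.PrG (Mk m k) (deep m k l l' (sb m k t l' l)) A ε)
    (hgood : ∀ w : Key → ℕ, (∀ q, w q < Mk m k q) → ¬ A w →
      (∀ c ∈ Jx m k t l' l, PPx m k t l' l w c ≤ Real.exp (-δ)) ∧
      ∀ n, ((Zw m k l (sb m k t l' l) w ×ˢ Zw m k l' (sb m k t l' l) w).filter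
        (fun q => q.1 + q.2 = n)).card ≤ R0) :
    Pool.Agent.Helper22.SL.PrG (Mk m k) K (fun w => ∃ c ∈ Jx m k t l' l,
      (n + 1) ^ 2 ^ (4 * hb m k t l' l) * (Pool.Agent.Helper39.SL.Cd (PN m k t l' l) * R0)
        < cNx m k t l' l w c)
      (ε + (Jx m k t l' l).card * ((3 * (hb m k t l' l : ℝ) + 1) *
        Γ * Real.exp (-δ) ^ (n + 1))) := by
  have hrL := rL_le hm k l
  have hth := hb_le (l' := l') h.tr
  have hth' := hth.trans h.rL_le
  have ht := h.tr
  have hts : t ≤ sL m k l + 1 := by omega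
  have htk : t ≤ k + 2 := by omega
  have hP : (PN m k t l' l).Ok (Mk m k) := hN.ok
  have hθ : ∀ c ∈ Jx m k t l' l, c.1 ∈ Theta (pJ k (sL m k l)) (dJ m k l l' t) := by
    intro c hc
    unfold Jx at hc
    exact (mem_product.1 hc).1
  have h1 := Pool.Agent.Helper39.SL.sl_union (P := PN m k t l' l) hP (Mk_pos m k)
    (K0 := deep m k l l' (sb m k t l' l)) (deep_sub hK hK')
    (prB_keys_deep (t := t) (h := hb m k t l' l) hm hN.big hN.big' h.sL_eq hth hth' hK hK')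
    (fun w => Bw m k l (sb m k t l' l) w) (fun w => Bw m k l' (sb m k t l' l) w)
    (fun w => Zw m k l t w) (fun w => Zw m k l' t w)
    (fun w w' hw => Bw_congr_deep hm hN.big hN.big' hw)
    (fun w => rep_prB hP hm hth w)
    (fun w => rep_prB' hP hm h.sL_eq hth' w)
    (Jx m k t l' l) (fun c => c.2.2.1) (fun c => bm m k t l' l * c.2.2.2) (clx m k t l' l)
    (I := IJ m k l l') (D := DJ m k l l' t) (C1 := 1) (R0 := R0)
    (Ir := IrJ m k l l' t) (ρ := Real.exp (-δ)) (Γ := Γ) (δ := ε) (A := A) (m := n)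
    (DJ_pos _ _ _ _ _) (F0_b h hm) (fun c _ => dvd_mul_right _ _)
    (fun c hc x => hC1_b hm hts htk (hθ c hc) x)
    (fun c hc r _ x => hIr_b h hm hts htk (hθ c hc) r x)
    (Real.exp_pos _).le (hN.hA δ hδ) (hN.hB δ hδ) hN.hG hN.hG' hA
    (fun w hw hnA => ⟨fun c hc => (hgood w hw hnA).1 c hc, fun x => ?_⟩) hn
  · simp only [one_mul] at h1
    exact h1
  · have h3 := leaf_Bw_of_Zw (s := sb m k t l' l) hm h.sL_eq hth hth' w (hgood w hw hnA).2 x
    have e1 : (PN m k t l' l).L (PN m k t l' l).h =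
        LL (QQ m k (sL m k l)) (sb m k t l' l) := prB_L (hb m k t l' l)
    rw [e1]
    exact h3

end Pool.Agent.Helper39.T5g
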