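import Pool.Agent.Helper39.T5g.SlInst
import Pool.Agent.Helper63.T5g.ClsB
import Pool.Agent.Helper22.NEARg.Stmts
import Pool.Agent.Helper30.T5g.BigQF

/-!
# T5g (MP_12a1af), NEARb block, line Nb4 (`SlInstS`)
-/

set_option autoImplicit false

namespace Pool.Agent.Helper39.T5g

open Finset
open Pool.Agent.Helper5.ET hiding Key Mk AA Rp keysOf el ext
open Pool.Agent.Helper27.T4
open Pool.Agent.Helper37.T5g
open Pool.Agent.Helper22.HW Pool.Agent.Helper22.SL Pool.Agent.Helper57.T5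
open Pool.Agent.Helper84.T5g Pool.Agent.Helper44.T5 Pool.Agent.Helper44.T5g Pool.Agent.Helper44.T5b
open Pool.Agent.Helper22.NEARg

variable {m : Sq} {k l l' t : ℕ}

theorem eJ_eq_eB {m : Sq} {k t l' l : ℕ} (h : PDb m k t l' l) (r : ℕ) :
    eJ m k l l' t r = Pool.Agent.Helper63.T5g.eB m k t l' l r := by
  funext i
  unfold eJ Pool.Agent.Helper63.T5g.eB ef
  rw [h.sL_eq]

theorem IrJ_eq_IrB {m : Sq} {k t l' l : ℕ} (h : PDb m k t l' l) (r : ℕ) :
    IrJ m k l l' t r = Pool.Agent.Helper63.T5g.IrB m k t l' l r := by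
  unfold IrJ Pool.Agent.Helper63.T5g.IrB
  rw [eJ_eq_eB h]

/-- the numbers of a late pair -/
theorem numB (hm : m.Ok) (h : PDb m k t l' l)
    (hL : Pool.Agent.Helper63.T5g.LateN m k (Pool.Agent.Helper63.T5g.cB k) l') :
    NumB m k t l' l (Real.exp (42 * wW m k l t)) where
  big := hL.bb.trans (Pool.Agent.Helper27.T5b.l1_mono _ h.le)
  big' := hL.bb
  ok := Pool.Agent.Helper63.T5g.PN_ok hm h hL
  hA := fun _ hδ => Pool.Agent.Helper63.T5g.PN_hA hm h hL hδ
  hB := fun δ hδ r hr hr1 => by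
    rw [IrJ_eq_IrB h]
    exact Pool.Agent.Helper63.T5g.PN_hB hm h hL hδ r hr hr1
  hG := Pool.Agent.Helper63.T5g.PN_hG hm h hL
  hG' := Pool.Agent.Helper63.T5g.PN_hG' hm h hL

/-- **Nb4**: the static block, all contexts -/
theorem sl_inst (m : Sq) (k : ℕ) (hm : m.Ok)
    [hQ : Pool.Agent.Helper30.T5g.BigQ m k] : SlInstS m k := by
  obtain ⟨K0, hK0⟩ := Pool.Agent.Helper63.T5g.exists_lateN hm k (Pool.Agent.Helper63.T5g.cB k)
  refine ⟨K0, ?_⟩
  intro t l' l hl' h K hK hK' R0 n hn δ ε hδ A hA hgood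
  have hm0 := hm
  exact sl_inst_of hm0 h (numB hm0 h (hK0 l' hl')) hK hK' hn hδ hA hgood

/-- **Nb4**, the field `slInst` of the lines -/
theorem slInst (m : Sq) (hm : Pool.Agent.Helper99.T5g.OkF m) : SlInstS m m.k :=
  sl_inst m m.k hm.toOk (hQ := Pool.Agent.Helper30.T5g.bigQ_of_okF hm)

end Pool.Agent.Helper39.T5g
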