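import Pool.Agent.Helper30.T5g.BigQF
import Pool.Agent.Helper39.T5g.SlInstS
import Pool.Agent.Helper63.T5g.SplitNum

/-!
# T5g (MP_12a1af), NEARs block, line S4 (`SlInstS` across SPLIT)
-/

set_option autoImplicit false

namespace Pool.Agent.Helper39.T5g

open Finset
open Pool.Agent.Helper5.ET hiding Key Mk AA Rp keysOf el ext
open Pool.Agent.Helper27.T4
open Pool.Agent.Helper37.T5g
open Pool.Agent.Helper22.HW Pool.Agent.Helper22.SL Pool.Agent.Helper57.T5
open Pool.Agent.Helper84.T5g Pool.Agent.Helper44.T5 Pool.Agent.Helper44.T5g Pool.Agent.Helper44.T5b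
open Pool.Agent.Helper22.NEARsg
open Pool.Agent.Helper48.T5g (SplitP)

variable {m : Sq} {k l l' t : ℕ}

/-- the numbers of a late pair across SPLIT -/
theorem numBS (hm : m.Ok) (h : PDs m k t l' l) (hS : SplitP m k (sL m k l') l' l)
    (hL : Pool.Agent.Helper63.T5g.LateN m k (Pool.Agent.Helper63.T5g.cG k) l') :
    NumBS m k t l' l (Real.exp (42 * Pool.Agent.Helper22.NEARg.wW m k l t)) where
  ok := fun o => Pool.Agent.Helper63.T5g.PNs_ok hm h hS hL o
  hA := fun o _ hδ => Pool.Agent.Helper63.T5g.PNs_hA hm h hS hL hδ o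
  hB := fun o _ hδ => Pool.Agent.Helper63.T5g.PNs_hB hm h hS hL hδ o
  hG := fun o => Pool.Agent.Helper63.T5g.PNs_hG hm h hS hL o
  hG' := fun o => Pool.Agent.Helper63.T5g.PNs_hG' hm h hS hL o

/-- **S4**: the static block across SPLIT, all contexts -/
theorem sl_instS (m : Sq) (k : ℕ) (hm : m.Ok)
    [hQ : Pool.Agent.Helper30.T5g.BigQ m k] :
    Pool.Agent.Helper22.NEARsg.SlInstS m k := by
  have hm0 := hm
  obtain ⟨K0, hK0⟩ := Pool.Agent.Helper63.T5g.exists_lateN hm k (Pool.Agent.Helper63.T5g.cG k)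
  obtain ⟨K1, hK1⟩ := exists_splitP hm0 k
  refine ⟨max K0 K1, ?_⟩
  intro t l' l hl' h K hK hK' R0 n hn δ ε hδ A hA hgood
  obtain ⟨hS, hbb⟩ := hK1 t l' l ((le_max_right _ _).trans hl') h
  exact sl_instS_of hm0 h hS hbb (numBS hm0 h hS (hK0 l' ((le_max_left _ _).trans hl')))
    hK hK' hn hδ hA hgood

/-- **S4**, the field `slInst` of the lines across SPLIT -/
theorem slInstS (m : Sq) (hm : Pool.Agent.Helper99.T5g.OkF m) :
    Pool.Agent.Helper22.NEARsg.SlInstS m m.k :=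
  sl_instS m m.k hm.toOk (hQ := Pool.Agent.Helper30.T5g.bigQ_of_okF hm)

end Pool.Agent.Helper39.T5g
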